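import Mathlib
import Pool.Agent.Lib.Helper82.LindelofCriterion

set_option autoImplicit false

open Cardinal Set Topology
open Pool.Agent.Lib.Helper82.CpDiscretely

universe u

namespace Pool.Agent.Results.MP_f12e07_gt.Criterion

/-- Let `X` be a topological space such that every discrete subset of `C_p(X) × C_p(X)` has
Lindelöf closure.  Suppose that for every uncountable cardinal `κ` of countable cofinality which is
the cardinality of some right separated subset of `C_p(X)`, there is a right separated
`R ⊆ C_p(X)` such that `C_p(X)` has a dense subset of cardinality `≤ |R|`, or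
`cof([κ]^{≤ω}, ⊆) ≤ |R|`.  Then `C_p(X)` is Lindelöf. -/
theorem result (X : Type u) [TopologicalSpace X]
    (hD : ∀ D : Set (Cp X × Cp X), DiscreteTopology D → IsLindelof (closure D))
    (hR : ∀ κ : Cardinal.{u}, ℵ₀ < κ → κ.ord.cof = ℵ₀ →
      (∃ R : Set (Cp X), RightSeparated R ∧ #R = κ) →
      ∃ R : Set (Cp X), RightSeparated R ∧
        ((∃ A : Set (Cp X), Dense A ∧ #A ≤ #R) ∨ CofCountableLE κ #R)) :
    LindelofSpace (Cp X) :=
  lindelof_criterion (fun _ _ hR' hA => isLindelof_closure hD hR' hA) hR

end Pool.Agent.Results.MP_f12e07_gt.Criterion
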