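import Mathlib
import Pool.Agent.Lib.H58C.T30
import Pool.Agent.Lib.H58C.Z11
import Pool.Agent.Lib.H58C.Q11

/-!
# MP_f12e07_gt : a positive answer to Q1 is not provable in ZFC

The guessing scale principle `ScaleIn` holds in some model of ZFC, and it implies that there is a
Tychonoff space `X` such that the closures of all discrete subsets of `C_p(X) × C_p(X)` are
Lindelöf while `C_p(X)` is not Lindelöf.
-/

set_option autoImplicit false

namespace Pool.Agent.Results.MP_f12e07_gt.NotProvable

open Pool.Agent.H5Z Pool.Agent.H58C

theorem result :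
    (∃ (M : Type 1) (E : M → M → Prop), ModelsZFC E ∧ ScaleIn E) ∧
    (ScaleIn (fun x y : ZFSet.{0} => x ∈ y) →
      ∃ (X : Type) (_ : TopologicalSpace X), T35Space X ∧
        (∀ D : Set ({f : X → ℝ // Continuous f} × {f : X → ℝ // Continuous f}),
          DiscreteTopology D → IsLindelof (closure D)) ∧
        ¬ LindelofSpace {f : X → ℝ // Continuous f}) := by
  refine ⟨exists_scale_model, fun h => ?_⟩
  obtain ⟨Ω, _, _, k, g, h, S⟩ := scale_of_in h
  exact S.counterexample

end Pool.Agent.Results.MP_f12e07_gt.NotProvable
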