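import Mathlib
import Pool.Agent.Lib.Helper82.CpDiscretely

set_option autoImplicit false

open Cardinal Set Topology
open Pool.Agent.Lib.Helper82.CpDiscretely

universe u

namespace Pool.Agent.Results.MP_f12e07_gt.SmallSets

/-- Let `Z` and `X` be topological spaces such that every discrete subset of `Z × C_p(X)` has
Lindelöf closure (for `Z = C_p(X)` this is the hypothesis of the question).  If `R` is a right
separated subset of `C_p(X)`, then every subset `A` of `Z` with `|A| ≤ |R|` has Lindelöf closure
in `Z`. -/
theorem result {X Z : Type u} [TopologicalSpace X] [TopologicalSpace Z]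
    (hD : ∀ D : Set (Z × Cp X), DiscreteTopology D → IsLindelof (closure D))
    {R : Set (Cp X)} (hR : RightSeparated R) {A : Set Z} (hA : #A ≤ #R) :
    IsLindelof (closure A) :=
  isLindelof_closure hD hR hA

end Pool.Agent.Results.MP_f12e07_gt.SmallSets
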